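import Pool.Agent.helper60.AVK.SpecD

namespace Pool.Agent.helper60.AVK

open MeasureTheory Matrix

open scoped Pointwise

/-- At almost every point at most `[G : Γ₀]` elements of `G` move it to the fundamental domain. -/
theorem COMPN_count (hinv : INV_stmt) (G Γ₀ : Subgroup PS) [Countable G]
    (h0 : Γ₀ ≤ G) (A F₀ : Set H3) (hF : IsFD Γ₀ F₀) (hA : A ⊆ F₀) :
    ∀ᵐ p : H3, (∑' g : G, A.indicator (fun _ => (1 : ENNReal)) ((g : PS) • p)) ≤
      ((ENat.card (G ⧸ Γ₀.subgroupOf G) : ENat) : ENNReal) := by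
  have hI : SMulInvariantMeasure PS H3 (volume : Measure H3) := hinv
  have hc0 : Countable Γ₀ := (Subgroup.inclusion_injective h0).countable
  have hN : ∀ γ : Γ₀, γ ≠ 1 → volume (F₀ ∩ γ • F₀) = 0 := by
    intro γ hγ
    have h1 := hF.aedisjoint (show (1 : Γ₀) ≠ γ from fun h => hγ h.symm)
    have h2 : AEDisjoint volume ((1 : Γ₀) • F₀) (γ • F₀) := h1
    rw [one_smul] at h2
    exact h2
  have h2 : ∀ g : G, ∀ γ : Γ₀, γ ≠ 1 → ∀ᵐ p : H3, (g : PS) • p ∉ F₀ ∩ γ • F₀ := by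
    intro g γ hγ
    have h3 : volume ((fun p : H3 => (g : PS) • p) ⁻¹' (F₀ ∩ γ • F₀)) = 0 :=
      measure_preimage_smul_null (hN γ hγ) (g : PS)
    exact measure_eq_zero_iff_ae_notMem.1 h3
  have h3 : ∀ᵐ p : H3, ∀ g : G, ∀ γ : Γ₀, γ ≠ 1 → (g : PS) • p ∉ F₀ ∩ γ • F₀ := by
    rw [ae_all_iff]
    intro g
    rw [ae_all_iff]
    intro γ
    by_cases hγ : γ = 1
    · exact Filter.Eventually.of_forall fun p h => absurd hγ h
    · filter_upwards [h2 g γ hγ] with p hp _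
      exact hp
  filter_upwards [h3] with p hp
  have e1 : (∑' g : G, A.indicator (fun _ => (1 : ENNReal)) ((g : PS) • p)) =
      ∑' g : {g : G | (g : PS) • p ∈ A}, (1 : ENNReal) := by
    rw [tsum_subtype {g : G | (g : PS) • p ∈ A} (fun _ => (1 : ENNReal))]
    refine tsum_congr fun g => ?_
    by_cases hg : (g : PS) • p ∈ A
    · rw [Set.indicator_of_mem hg, Set.indicator_of_mem (show g ∈ {g : G | (g : PS) • p ∈ A} from hg)]
    · rw [Set.indicator_of_notMem hg, Set.indicator_of_notMem (show g ∉ {g : G | (g : PS) • p ∈ A} from hg)]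
  rw [e1, ENNReal.tsum_one]
  have hinj : Function.Injective (fun g : {g : G | (g : PS) • p ∈ A} =>
      ((g.1⁻¹ : G) : G ⧸ Γ₀.subgroupOf G)) := by
    rintro ⟨g, hg⟩ ⟨g', hg'⟩ h
    have h4 : (g⁻¹)⁻¹ * g'⁻¹ ∈ Γ₀.subgroupOf G := QuotientGroup.eq.1 h
    rw [inv_inv, Subgroup.mem_subgroupOf] at h4
    have h5 : ((g * g'⁻¹ : G) : PS) = (g : PS) * (g' : PS)⁻¹ := rfl
    rw [h5] at h4
    by_contra hne
    have hne' : (⟨(g : PS) * (g' : PS)⁻¹, h4⟩ : Γ₀) ≠ 1 := by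
      intro h6
      have h7 : (g : PS) * (g' : PS)⁻¹ = 1 := congrArg Subtype.val h6
      apply hne
      have h8 : (g : PS) = g' := mul_inv_eq_one.1 h7
      exact Subtype.ext (Subtype.ext h8)
    refine hp g _ hne' ⟨hA hg, ?_⟩
    refine ⟨(g' : PS) • p, hA hg', ?_⟩
    change ((g : PS) * (g' : PS)⁻¹) • ((g' : PS) • p) = (g : PS) • p
    rw [smul_smul, inv_mul_cancel_right]
  exact ENat.toENNReal_le.2 (ENat.card_le_card_of_injective hinj)

theorem COMPN (_h1 : MEAS_stmt) (h2 : INV_stmt) (h3 : CNT_stmt) : COMPN_stmt := by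
  intro G Γ Γ₀ hG hΓ hΓ₀ hfin hle F F₀ hF hF₀
  have := hG
  obtain ⟨A, hA, hAm, hAe⟩ := hF₀.nullMeasurableSet.exists_measurable_subset_ae_eq
  have hcnt := h3 G Γ hG hΓ F hF A hAm
  have hae := COMPN_count h2 G Γ₀ hΓ₀ A F₀ hF₀ hA
  have hub : ∫⁻ p in F, (∑' g : G, A.indicator (fun _ => (1 : ENNReal)) ((g : PS) • p)) ≤
      ((ENat.card (G ⧸ Γ₀.subgroupOf G) : ENat) : ENNReal) * volume F := by
    calc ∫⁻ p in F, (∑' g : G, A.indicator (fun _ => (1 : ENNReal)) ((g : PS) • p))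
        ≤ ∫⁻ _ in F, ((ENat.card (G ⧸ Γ₀.subgroupOf G) : ENat) : ENNReal) :=
          lintegral_mono_ae (ae_restrict_of_ae hae)
      _ = _ := by
          rw [lintegral_const, Measure.restrict_apply_univ]
  rw [hcnt, measure_congr hAe] at hub
  have hn : Nat.card (G ⧸ Γ₀.subgroupOf G) ≠ 0 := hfin
  have hfinQ : Finite (G ⧸ Γ₀.subgroupOf G) := Nat.finite_of_card_ne_zero hn
  have hcard0 : ENat.card (G ⧸ Γ₀.subgroupOf G) = (Nat.card (G ⧸ Γ₀.subgroupOf G) : ℕ) :=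
    ENat.card_eq_coe_natCard _
  have hcle : ENat.card (G ⧸ Γ₀.subgroupOf G) ≤ ENat.card (G ⧸ Γ.subgroupOf G) := by
    rcases hle with h | h
    · have h4 : Nat.card (G ⧸ Γ.subgroupOf G) = 0 := h
      rcases Nat.card_eq_zero.1 h4 with h5 | h5
      · exact (h5.false (QuotientGroup.mk 1)).elim
      · have h6 : ENat.card (G ⧸ Γ.subgroupOf G) = ⊤ := by
          have : Infinite (G ⧸ Γ.subgroupOf G) := h5
          exact ENat.card_eq_top_of_infinite
        rw [h6]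
        exact le_top
    · have h4 : Nat.card (G ⧸ Γ₀.subgroupOf G) ≤ Nat.card (G ⧸ Γ.subgroupOf G) := h
      have h5 : Nat.card (G ⧸ Γ.subgroupOf G) ≠ 0 := by omega
      have : Finite (G ⧸ Γ.subgroupOf G) := Nat.finite_of_card_ne_zero h5
      rw [hcard0, ENat.card_eq_coe_natCard]
      exact_mod_cast h4
  have hfinal : ((ENat.card (G ⧸ Γ₀.subgroupOf G) : ENat) : ENNReal) * volume F₀ ≤
      ((ENat.card (G ⧸ Γ₀.subgroupOf G) : ENat) : ENNReal) * volume F :=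
    le_trans (mul_le_mul_left (ENat.toENNReal_le.2 hcle) (volume F₀)) hub
  rw [hcard0] at hfinal
  have hnz : (((Nat.card (G ⧸ Γ₀.subgroupOf G) : ℕ) : ENat) : ENNReal) ≠ 0 := by
    rw [ENat.toENNReal_coe]
    exact_mod_cast hn
  have hnt : (((Nat.card (G ⧸ Γ₀.subgroupOf G) : ℕ) : ENat) : ENNReal) ≠ ⊤ := by
    rw [ENat.toENNReal_coe]
    exact ENNReal.natCast_ne_top _
  exact (ENNReal.mul_le_mul_iff_right hnz hnt).1 hfinal

end Pool.Agent.helper60.AVK
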